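import Pool.Agent.ANR.Stmts

/-!
# Release of a block, row LV0: one site
-/

set_option autoImplicit false

open scoped BigOperators ComplexConjugate

noncomputable section

namespace Pool.Agent.ANR.H20

open Pool.Agent.ANR

theorem opv_sub {X : Type} [Fintype X] [DecidableEq X] (H : Matrix X X ℝ) (κ : X → ℝ)
    (ψ φ : X → ℂ) (c : ℂ) (x : X) :
    opv H κ (fun z => ψ z - c * φ z) x = opv H κ ψ x - c * opv H κ φ x := by
  unfold opv
  have h1 : ∑ y, (H x y : ℂ) * (ψ y - c * φ y) =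
      ∑ y, (H x y : ℂ) * ψ y - c * ∑ y, (H x y : ℂ) * φ y := by
    rw [Finset.mul_sum, ← Finset.sum_sub_distrib]
    apply Finset.sum_congr rfl
    intro y _
    ring
  rw [h1]
  ring

theorem lv0 (hG : GeqStmt) (hD : DirStmt) : Lv0Stmt := by
  intro X _ _ H κ b x hN hxb ψ hψ
  obtain ⟨g1, -, -, -, -⟩ := hG X H κ hN
  obtain ⟨c, hc⟩ : ∃ c, c = opv H κ ψ b := ⟨_, rfl⟩
  obtain ⟨φ, hφ⟩ : ∃ φ : X → ℂ, φ = fun z => Gr H κ z b := ⟨_, rfl⟩
  have hz : ∀ z, opv H κ (fun z => ψ z - c * φ z) z = 0 := by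
    intro z
    rw [opv_sub, hφ, g1 z b]
    by_cases h : z = b
    · rw [if_pos h, h, hc, mul_one, sub_self]
    · rw [if_neg h, mul_zero, sub_zero]
      apply hψ
      simpa using h
  have h0 : ∀ z, opv H κ (fun _ => (0 : ℂ)) z = 0 := by
    intro z
    unfold opv
    simp
  obtain ⟨w, -, hw⟩ := hD X H κ ∅ hN (fun _ => 0) (fun _ => 0)
  have e1 := hw (fun z => ψ z - c * φ z) ⟨fun b hb => absurd hb (Finset.notMem_empty b),
    fun z _ => hz z⟩
  have e2 := hw (fun _ => (0 : ℂ)) ⟨fun b hb => absurd hb (Finset.notMem_empty b),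
    fun z _ => h0 z⟩
  have hψ2 : ∀ z, ψ z = c * Gr H κ z b := by
    intro z
    have h1 := congrFun (e1.trans e2.symm) z
    have h2 : ψ z - c * φ z = 0 := h1
    rw [hφ] at h2
    exact sub_eq_zero.1 h2
  have hQ : Q κ {b} ψ = ‖c‖ ^ 2 * ∑ z ∈ ({b} : Finset X)ᶜ, κ z * ‖Gr H κ z b‖ ^ 2 := by
    unfold Q
    rw [Finset.mul_sum]
    apply Finset.sum_congr rfl
    intro z _
    rw [hψ2 z, norm_mul, mul_pow]
    ring
  rw [hQ, hψ2 x, norm_mul, mul_pow]
  have hnn : ∀ z ∈ ({b} : Finset X)ᶜ, 0 ≤ κ z * ‖Gr H κ z b‖ ^ 2 := by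
    intro z _
    have := hN.pos z
    positivity
  by_cases hS : ∑ z ∈ ({b} : Finset X)ᶜ, κ z * ‖Gr H κ z b‖ ^ 2 = 0
  · have hx : x ∈ ({b} : Finset X)ᶜ := by
      rw [Finset.mem_compl, Finset.mem_singleton]
      exact hxb
    have h1 := (Finset.sum_eq_zero_iff_of_nonneg hnn).1 hS x hx
    have h2 : ‖Gr H κ x b‖ ^ 2 = 0 := by
      rcases mul_eq_zero.1 h1 with h | h
      · exact absurd h (hN.pos x).ne'
      · exact h
    rw [h2]
    simp
  · apply le_of_eq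
    field_simp

end Pool.Agent.ANR.H20
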